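import Mathlib

set_option autoImplicit false

open Submodule

namespace Pool.Agent.Split

variable (F : Type*) [Field F]

noncomputable def e (n : ℕ) : ℕ →₀ F := Finsupp.single n 1

noncomputable def pv (n : ℕ) : ℕ →₀ F :=
  if n % 2 = 0 then e F (n + 2) + e F (n + 3) else e F (n - 1) + e F n - e F (n + 1) - e F (n + 2)

noncomputable def P : (ℕ →₀ F) →ₗ[F] (ℕ →₀ F) := Finsupp.linearCombination F (pv F)

theorem P_e (n : ℕ) : P F (e F n) = pv F n := by
  simp [P, e]

theorem P_even (k : ℕ) : P F (e F (2 * k)) = e F (2 * k + 2) + e F (2 * k + 3) := by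
  rw [P_e]; simp [pv]

theorem P_odd (k : ℕ) : P F (e F (2 * k + 1)) =
    e F (2 * k) + e F (2 * k + 1) - e F (2 * k + 2) - e F (2 * k + 3) := by
  rw [P_e]
  have h : (2 * k + 1) % 2 = 1 := by omega
  simp [pv, h]

theorem ext_e {M : Type*} [AddCommGroup M] [Module F M] {f g : (ℕ →₀ F) →ₗ[F] M}
    (h : ∀ n, f (e F n) = g (e F n)) : f = g := by
  refine Finsupp.lhom_ext' fun n => LinearMap.ext_ring ?_
  exact h n

theorem ext_eo {M : Type*} [AddCommGroup M] [Module F M] {f g : (ℕ →₀ F) →ₗ[F] M}
    (h0 : ∀ k, f (e F (2 * k)) = g (e F (2 * k)))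
    (h1 : ∀ k, f (e F (2 * k + 1)) = g (e F (2 * k + 1))) : f = g := by
  refine ext_e F fun n => ?_
  rcases Nat.even_or_odd' n with ⟨k, rfl | rfl⟩
  · exact h0 k
  · exact h1 k

theorem P_idem : P F ∘ₗ P F = P F := by
  refine ext_eo F (fun k => ?_) (fun k => ?_)
  · rw [LinearMap.comp_apply, P_even, map_add]
    have h1 : P F (e F (2 * k + 2)) = e F (2 * k + 4) + e F (2 * k + 5) := P_even F (k + 1)
    have h2 : P F (e F (2 * k + 3)) =
      e F (2 * k + 2) + e F (2 * k + 3) - e F (2 * k + 4) - e F (2 * k + 5) := P_odd F (k + 1)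
    rw [h1, h2]; abel
  · rw [LinearMap.comp_apply, P_odd, map_sub, map_sub, map_add, P_even, P_odd]
    have h1 : P F (e F (2 * k + 2)) = e F (2 * k + 4) + e F (2 * k + 5) := P_even F (k + 1)
    have h2 : P F (e F (2 * k + 3)) =
      e F (2 * k + 2) + e F (2 * k + 3) - e F (2 * k + 4) - e F (2 * k + 5) := P_odd F (k + 1)
    rw [h1, h2]; abel

theorem isCompl : IsCompl (LinearMap.ker (P F)) (LinearMap.range (P F)) := by
  have h : IsIdempotentElem (P F) := P_idem F
  exact (LinearMap.IsIdempotentElem.isCompl h).symm

/-- functionals on coordinates -/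
noncomputable def fn (s : ℕ → F) : (ℕ →₀ F) →ₗ[F] F := Finsupp.linearCombination F s

theorem fn_e (s : ℕ → F) (n : ℕ) : fn F s (e F n) = s n := by simp [fn, e]

theorem no_split (B₁ B₂ : Set (ℕ →₀ F)) (hB : B₁ ∪ B₂ = Set.range (e F)) (hd : Disjoint B₁ B₂)
    (h1 : IsCompl (LinearMap.ker (P F)) (span F B₁))
    (h2 : IsCompl (LinearMap.range (P F)) (span F B₂)) : False := by
  classical
  have hmem : ∀ n, e F n ∈ B₁ ∨ e F n ∈ B₂ := fun n => by
    have : e F n ∈ B₁ ∪ B₂ := by rw [hB]; exact ⟨n, rfl⟩
    exact this
  have hnot : ∀ n, e F n ∈ B₁ → e F n ∉ B₂ := fun n h h' => Set.disjoint_left.1 hd h h'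
  have hB1 : ∀ b ∈ B₁, ∃ n, b = e F n := by
    intro b hb
    have : b ∈ Set.range (e F) := by rw [← hB]; exact Or.inl hb
    obtain ⟨n, rfl⟩ := this; exact ⟨n, rfl⟩
  have hB2 : ∀ b ∈ B₂, ∃ n, b = e F n := by
    intro b hb
    have : b ∈ Set.range (e F) := by rw [← hB]; exact Or.inr hb
    obtain ⟨n, rfl⟩ := this; exact ⟨n, rfl⟩
  have einj : ∀ m n, e F m = e F n → m = n := by
    intro m n h
    exact Finsupp.single_left_injective (one_ne_zero) h
  -- a functional vanishing on both parts vanishes
  have kill : ∀ (V W : Submodule F (ℕ →₀ F)), IsCompl V W → ∀ f : (ℕ →₀ F) →ₗ[F] F,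
      (∀ v ∈ V, f v = 0) → (∀ w ∈ W, f w = 0) → ∀ r, f r = 0 := by
    intro V W hc f hV hW r
    have : r ∈ V ⊔ W := by rw [hc.sup_eq_top]; trivial
    obtain ⟨v, hv, w, hw, rfl⟩ := Submodule.mem_sup.1 this
    rw [map_add, hV v hv, hW w hw, add_zero]
  have spanz : ∀ (B : Set (ℕ →₀ F)) (f : (ℕ →₀ F) →ₗ[F] F), (∀ b ∈ B, f b = 0) →
      ∀ w ∈ span F B, f w = 0 := by
    intro B f hf w hw
    have : span F B ≤ LinearMap.ker f := Submodule.span_le.2 fun b hb => hf b hb
    exact this hw
  -- not both even and odd in B₁
  have hA1 : ∀ i, e F (2 * i) ∈ B₁ → e F (2 * i + 1) ∉ B₁ := by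
    intro i ha hb'
    let f := fn F (fun n => if n = 2 * i then 1 else if n = 2 * i + 1 then -1 else 0)
    have hf : ∀ r, f r = 0 := by
      refine kill _ _ h2 f ?_ ?_
      · rintro _ ⟨r, rfl⟩
        have : f ∘ₗ P F = 0 := by
          refine ext_eo F (fun k => ?_) (fun k => ?_)
          · rw [LinearMap.comp_apply, P_even, map_add]
            simp only [f, fn_e, LinearMap.zero_apply]
            split_ifs <;> first | omega | contradiction | simp
          · rw [LinearMap.comp_apply, P_odd, map_sub, map_sub, map_add]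
            simp only [f, fn_e, LinearMap.zero_apply]
            split_ifs <;> first | omega | contradiction | simp
        exact LinearMap.congr_fun this r
      · refine spanz _ _ ?_
        intro b hb
        obtain ⟨n, rfl⟩ := hB2 b hb
        have h3 : n ≠ 2 * i := fun h => hnot _ ha (h ▸ hb)
        have h4 : n ≠ 2 * i + 1 := fun h => hnot _ hb' (h ▸ hb)
        simp [f, fn_e, h3, h4]
    have := hf (e F (2 * i))
    simp [f, fn_e] at this
  -- not both in B₂
  have hA2 : ∀ i, e F (2 * i) ∈ B₂ → e F (2 * i + 1) ∉ B₂ := by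
    intro i ha hb
    have h3 : e F (2 * i) + e F (2 * i + 1) ∈ span F B₂ :=
      add_mem (subset_span ha) (subset_span hb)
    have h4 : e F (2 * i) + e F (2 * i + 1) ∈ LinearMap.range (P F) := by
      refine ⟨e F (2 * i) + e F (2 * i + 1), ?_⟩
      rw [map_add, P_even, P_odd]; abel
    have h5 := Submodule.disjoint_def.1 h2.disjoint _ h4 h3
    have h6 := congrArg (fun r : ℕ →₀ F => r (2 * i)) h5
    simp [e] at h6
  by_cases hex : ∃ i, e F (2 * i) ∈ B₁
  · let i := Nat.find hex
    have hi : e F (2 * i) ∈ B₁ := Nat.find_spec hex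
    have hlt : ∀ k < i, e F (2 * k) ∉ B₁ := fun k hk => Nat.find_min hex hk
    have hi1 : e F (2 * i + 1) ∉ B₁ := hA1 i hi
    let f' := fn F (fun n => if n % 2 = 0 ∧ n ≤ 2 * i then 1 else 0)
    let f := f' ∘ₗ P F
    have hf0 : ∀ k, f (e F (2 * k)) = if k < i then 1 else 0 := by
      intro k
      simp only [f, LinearMap.comp_apply, P_even, map_add, f', fn_e]
      split_ifs <;> first | omega | contradiction | simp
    have hf1 : ∀ k, f (e F (2 * k + 1)) = if k = i then 1 else 0 := by
      intro k
      simp only [f, LinearMap.comp_apply, P_odd, map_add, map_sub, f', fn_e]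
      split_ifs <;> first | omega | contradiction | simp
    have hf : ∀ r, f r = 0 := by
      refine kill _ _ h1 f ?_ ?_
      · intro v hv
        simp only [f, LinearMap.comp_apply, LinearMap.mem_ker.1 hv, map_zero]
      · refine spanz _ _ ?_
        intro b hb
        obtain ⟨n, rfl⟩ := hB1 b hb
        rcases Nat.even_or_odd' n with ⟨k, rfl | rfl⟩
        · rw [hf0]
          rw [if_neg]
          intro hk; exact hlt k hk hb
        · rw [hf1]
          rw [if_neg]
          intro hk; rw [hk] at hb; exact hi1 hb
    have := hf (e F (2 * i + 1))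
    rw [hf1] at this
    simp at this
  · push Not at hex
    have hodd : ∀ k, e F (2 * k + 1) ∈ B₁ := by
      intro k
      rcases hmem (2 * k + 1) with h | h
      · exact h
      · rcases hmem (2 * k) with h' | h'
        · exact absurd h' (hex k)
        · exact absurd h (hA2 k h')
    let f := fn F (fun n => if n % 2 = 0 then 1 else 0)
    have hfP : f ∘ₗ P F = f := by
      refine ext_eo F (fun k => ?_) (fun k => ?_)
      · rw [LinearMap.comp_apply, P_even, map_add]
        simp only [f, fn_e]
        split_ifs <;> first | omega | contradiction | simp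
      · rw [LinearMap.comp_apply, P_odd, map_sub, map_sub, map_add]
        simp only [f, fn_e]
        split_ifs <;> first | omega | contradiction | simp
    have hf : ∀ r, f r = 0 := by
      refine kill _ _ h1 f ?_ ?_
      · intro v hv
        rw [← hfP, LinearMap.comp_apply, LinearMap.mem_ker.1 hv, map_zero]
      · refine spanz _ _ ?_
        intro b hb
        obtain ⟨n, rfl⟩ := hB1 b hb
        rcases Nat.even_or_odd' n with ⟨k, rfl | rfl⟩
        · exact absurd hb (hex k)
        · simp [f, fn_e]
    have := hf (e F 0)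
    simp [f, fn_e] at this

/-- coordinates of `P r` -/
theorem P_coord (r : ℕ →₀ F) (j : ℕ) : (P F r) (2 * j + 2) = r (2 * j) + r (2 * j + 3) - r (2 * j + 1) ∧
    (P F r) (2 * j + 3) = r (2 * j) + r (2 * j + 3) - r (2 * j + 1) := by
  have h1 : (Finsupp.lapply (R := F) (2 * j + 2)) ∘ₗ P F =
      Finsupp.lapply (R := F) (2 * j) + Finsupp.lapply (2 * j + 3) - Finsupp.lapply (2 * j + 1) := by
    refine ext_eo F (fun k => ?_) (fun k => ?_)
    · rw [LinearMap.comp_apply, P_even]
      simp only [e, LinearMap.sub_apply, LinearMap.add_apply, Finsupp.lapply_apply,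
        Finsupp.add_apply, Finsupp.single_apply]
      split_ifs <;> first | omega | contradiction | simp
    · rw [LinearMap.comp_apply, P_odd]
      simp only [e, LinearMap.sub_apply, LinearMap.add_apply, Finsupp.lapply_apply,
        Finsupp.add_apply, Finsupp.sub_apply, Finsupp.single_apply]
      split_ifs <;> first | omega | contradiction | simp
  have h2 : (Finsupp.lapply (R := F) (2 * j + 3)) ∘ₗ P F =
      Finsupp.lapply (R := F) (2 * j) + Finsupp.lapply (2 * j + 3) - Finsupp.lapply (2 * j + 1) := by
    refine ext_eo F (fun k => ?_) (fun k => ?_)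
    · rw [LinearMap.comp_apply, P_even]
      simp only [e, LinearMap.sub_apply, LinearMap.add_apply, Finsupp.lapply_apply,
        Finsupp.add_apply, Finsupp.single_apply]
      split_ifs <;> first | omega | contradiction | simp
    · rw [LinearMap.comp_apply, P_odd]
      simp only [e, LinearMap.sub_apply, LinearMap.add_apply, Finsupp.lapply_apply,
        Finsupp.add_apply, Finsupp.sub_apply, Finsupp.single_apply]
      split_ifs <;> first | omega | contradiction | simp
  exact ⟨LinearMap.congr_fun h1 r, LinearMap.congr_fun h2 r⟩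

theorem P_coord0 (r : ℕ →₀ F) : (P F r) 0 = r 1 ∧ (P F r) 1 = r 1 := by
  have h1 : (Finsupp.lapply (R := F) 0) ∘ₗ P F = Finsupp.lapply (R := F) 1 := by
    refine ext_eo F (fun k => ?_) (fun k => ?_)
    · rw [LinearMap.comp_apply, P_even]
      simp only [e, Finsupp.lapply_apply, Finsupp.add_apply, Finsupp.single_apply]
      split_ifs <;> first | omega | contradiction | simp
    · rw [LinearMap.comp_apply, P_odd]
      simp only [e, Finsupp.lapply_apply,
        Finsupp.add_apply, Finsupp.sub_apply, Finsupp.single_apply]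
      split_ifs <;> first | omega | contradiction | simp
  have h2 : (Finsupp.lapply (R := F) 1) ∘ₗ P F = Finsupp.lapply (R := F) 1 := by
    refine ext_eo F (fun k => ?_) (fun k => ?_)
    · rw [LinearMap.comp_apply, P_even]
      simp only [e, Finsupp.lapply_apply, Finsupp.add_apply, Finsupp.single_apply]
      split_ifs <;> first | omega | contradiction | simp
    · rw [LinearMap.comp_apply, P_odd]
      simp only [e, Finsupp.lapply_apply,
        Finsupp.add_apply, Finsupp.sub_apply, Finsupp.single_apply]
      split_ifs <;> first | omega | contradiction | simp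
  exact ⟨LinearMap.congr_fun h1 r, LinearMap.congr_fun h2 r⟩

theorem cases4 (m : ℕ) : m = 0 ∨ m = 1 ∨ (∃ j, m = 2 * j + 2) ∨ ∃ j, m = 2 * j + 3 := by
  rcases Nat.even_or_odd' m with ⟨k, rfl | rfl⟩
  · rcases k with _ | k
    · left; rfl
    · right; right; left; exact ⟨k, by ring⟩
  · rcases k with _ | k
    · right; left; rfl
    · right; right; right; exact ⟨k, by ring⟩

theorem mem_ker_iff (r : ℕ →₀ F) :
    r ∈ LinearMap.ker (P F) ↔ r 1 = 0 ∧ ∀ j, r (2 * j) + r (2 * j + 3) = r (2 * j + 1) := by
  rw [LinearMap.mem_ker]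
  constructor
  · intro h
    refine ⟨?_, fun j => ?_⟩
    · rw [← (P_coord0 F r).1, h]; rfl
    · have := (P_coord F r j).1
      rw [h] at this
      exact (sub_eq_zero.1 this.symm)
  · rintro ⟨h0, h⟩
    ext m
    rcases cases4 m with rfl | rfl | ⟨j, rfl⟩ | ⟨j, rfl⟩
    · rw [(P_coord0 F r).1, h0]; rfl
    · rw [(P_coord0 F r).2, h0]; rfl
    · rw [(P_coord F r j).1, h, sub_self]; rfl
    · rw [(P_coord F r j).2, h, sub_self]; rfl

theorem mem_range_iff (r : ℕ →₀ F) :
    r ∈ LinearMap.range (P F) ↔ ∀ j, r (2 * j) = r (2 * j + 1) := by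
  constructor
  · rintro ⟨s, rfl⟩ j
    rcases j with _ | j
    · exact (P_coord0 F s).1.trans (P_coord0 F s).2.symm
    · exact (P_coord F s j).1.trans (P_coord F s j).2.symm
  · intro h
    refine ⟨r, ?_⟩
    ext m
    rcases cases4 m with rfl | rfl | ⟨j, rfl⟩ | ⟨j, rfl⟩
    · rw [(P_coord0 F r).1]; exact (h 0).symm
    · rw [(P_coord0 F r).2]
    · rw [(P_coord F r j).1, h j, add_sub_cancel_left]; exact (h (j + 1)).symm
    · rw [(P_coord F r j).2, h j, add_sub_cancel_left]

/-- the vector coded by a list -/
noncomputable def vec (l : List (ℕ × F)) : ℕ →₀ F := (l.map fun p => Finsupp.single p.1 p.2).sum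

section comp

variable {F}

/-- contribution of one entry -/
def term (l : List (ℕ × F)) (n k : ℕ) : F :=
  Option.casesOn (l[k]?) 0 (fun p => if p.1 = n then p.2 else 0)

def cf (l : List (ℕ × F)) (n : ℕ) : F :=
  Nat.rec 0 (fun k acc => term l n k + acc) l.length

theorem cf_aux (l : List (ℕ × F)) (n m : ℕ) :
    (Nat.rec 0 (fun k acc => term l n k + acc) m : F) = vec F (l.take m) n := by
  induction m with
  | zero => simp [vec]
  | succ m ih =>
    have h1 : (Nat.rec 0 (fun k acc => term l n k + acc) (m + 1) : F) =
      term l n m + (Nat.rec 0 (fun k acc => term l n k + acc) m : F) := rfl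
    rw [h1, ih, List.take_add_one]
    unfold vec term
    rw [List.map_append, List.sum_append]
    cases hl : l[m]? with
    | none => simp
    | some p =>
      simp only [Option.toList_some, List.map_cons, List.map_nil, List.sum_cons, List.sum_nil,
        add_zero, Finsupp.add_apply, Finsupp.single_apply]
      rw [add_comm]

theorem cf_eq (l : List (ℕ × F)) (n : ℕ) : cf l n = vec F l n := by
  unfold cf
  rw [cf_aux, List.take_length]

variable [Primcodable F]

theorem primrec_term : Primrec fun a : (List (ℕ × F) × ℕ) × ℕ => term a.1.1 a.1.2 a.2 := by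
  unfold term
  refine Primrec.option_casesOn (o := fun a : (List (ℕ × F) × ℕ) × ℕ => a.1.1[a.2]?)
    (g := fun (a : (List (ℕ × F) × ℕ) × ℕ) (p : ℕ × F) => if p.1 = a.1.2 then p.2 else 0)
    ?_ (Primrec.const 0) ?_
  · exact Primrec.list_getElem?.comp (Primrec.fst.comp Primrec.fst) Primrec.snd
  · refine Primrec.ite ?_ ?_ (Primrec.const 0)
    · exact Primrec.eq.comp (Primrec.fst.comp Primrec.snd)
        (Primrec.snd.comp (Primrec.fst.comp Primrec.fst))
    · exact Primrec.snd.comp Primrec.snd

theorem computable_cf (hadd : Computable₂ (fun a b : F => a + b)) :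
    Computable fun a : List (ℕ × F) × ℕ => cf a.1 a.2 := by
  unfold cf
  refine Computable.nat_rec (f := fun a : List (ℕ × F) × ℕ => a.1.length)
    (g := fun _ => (0 : F))
    (h := fun (a : List (ℕ × F) × ℕ) (q : ℕ × F) => term a.1 a.2 q.1 + q.2) ?_ ?_ ?_
  · exact (Primrec.list_length.comp Primrec.fst).to_comp
  · exact Computable.const 0
  · have h1 : Computable fun q : (List (ℕ × F) × ℕ) × (ℕ × F) => term q.1.1 q.1.2 q.2.1 :=
      (primrec_term.comp (Primrec.pair Primrec.fst (Primrec.fst.comp Primrec.snd))).to_comp
    exact hadd.comp h1 (Computable.snd.comp Computable.snd)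

/-- bounded conjunction -/
def ball (p : ℕ → Bool) (N : ℕ) : Bool := Nat.rec true (fun j acc => acc && p j) N

theorem ball_iff (p : ℕ → Bool) (N : ℕ) : ball p N = true ↔ ∀ j < N, p j = true := by
  induction N with
  | zero => simp [ball]
  | succ N ih =>
    have h1 : ball p (N + 1) = (ball p N && p N) := rfl
    rw [h1, Bool.and_eq_true, ih]
    constructor
    · rintro ⟨h2, h3⟩ j hj
      rcases Nat.lt_succ_iff_lt_or_eq.1 hj with h | rfl
      · exact h2 j h
      · exact h3
    · intro h; exact ⟨fun j hj => h j (by omega), h N (by omega)⟩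

theorem index_lt (l : List (ℕ × F)) (n : ℕ) (hn : Encodable.encode l ≤ n) : vec F l n = 0 := by
  induction l with
  | nil => simp [vec]
  | cons p l ih =>
    rw [Encodable.encode_list_cons] at hn
    have h1 : vec F (p :: l) = Finsupp.single p.1 p.2 + vec F l := by simp [vec]
    rw [h1, Finsupp.add_apply]
    have h2 := Nat.right_le_pair (Encodable.encode p) (Encodable.encode l)
    have h3 := Nat.left_le_pair (Encodable.encode p) (Encodable.encode l)
    have h4 : p.1 ≤ Encodable.encode p := by
      exact Nat.left_le_pair (Encodable.encode p.1) (Encodable.encode p.2)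
    rw [ih (by omega), add_zero, Finsupp.single_apply, if_neg (by omega)]

theorem comp_pred (q : List (ℕ × F) → ℕ → Bool)
    (hq : Computable₂ q) (p : List (ℕ × F) → Prop)
    (h : ∀ l, p l ↔ ∀ j < Encodable.encode l + 1, q l j = true) : ComputablePred p := by
  rw [ComputablePred.computable_iff]
  refine ⟨fun l => ball (q l) (Encodable.encode l + 1), ?_, ?_⟩
  · unfold ball
    refine Computable.nat_rec (f := fun l : List (ℕ × F) => Encodable.encode l + 1)
      (g := fun _ => true)
      (h := fun (l : List (ℕ × F)) (r : ℕ × Bool) => r.2 && q l r.1) ?_ (Computable.const true) ?_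
    · exact Computable.succ.comp Computable.encode
    · have h1 : Computable fun a : List (ℕ × F) × (ℕ × Bool) => q a.1 a.2.1 :=
        hq.comp Computable.fst (Computable.fst.comp Computable.snd)
      exact Primrec.and.to_comp.comp (Computable.snd.comp Computable.snd) h1
  · funext l
    exact propext ((h l).trans (ball_iff _ _).symm)

theorem comp_range (hadd : Computable₂ (fun a b : F => a + b)) :
    ComputablePred fun l : List (ℕ × F) => vec F l ∈ LinearMap.range (P F) := by
  classical
  have hcf := computable_cf hadd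
  refine comp_pred (fun l j => decide (cf l (2 * j) = cf l (2 * j + 1))) ?_ _ ?_
  · have h1 : Computable fun a : List (ℕ × F) × ℕ => cf a.1 (2 * a.2) :=
      hcf.comp (Computable.pair Computable.fst
        ((Primrec.nat_mul.comp (Primrec.const 2) Primrec.snd).to_comp))
    have h2 : Computable fun a : List (ℕ × F) × ℕ => cf a.1 (2 * a.2 + 1) :=
      hcf.comp (Computable.pair Computable.fst
        ((Primrec.succ.comp (Primrec.nat_mul.comp (Primrec.const 2) Primrec.snd)).to_comp))
    exact (Primrec.eq (α := F)).decide.to_comp.comp h1 h2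
  · intro l
    rw [mem_range_iff]
    simp only [decide_eq_true_eq, cf_eq]
    constructor
    · intro h j _; exact h j
    · intro h j
      by_cases hj : j < Encodable.encode l + 1
      · exact h j hj
      · rw [index_lt l _ (by omega), index_lt l _ (by omega)]

theorem comp_ker (hadd : Computable₂ (fun a b : F => a + b)) :
    ComputablePred fun l : List (ℕ × F) => vec F l ∈ LinearMap.ker (P F) := by
  classical
  have hcf := computable_cf hadd
  refine comp_pred (fun l j => decide (cf l 1 = 0) &&
    decide (cf l (2 * j) + cf l (2 * j + 3) = cf l (2 * j + 1))) ?_ _ ?_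
  · have h0 : Computable fun a : List (ℕ × F) × ℕ => cf a.1 1 :=
      hcf.comp (Computable.pair Computable.fst (Computable.const 1))
    have h1 : Computable fun a : List (ℕ × F) × ℕ => cf a.1 (2 * a.2) :=
      hcf.comp (Computable.pair Computable.fst
        ((Primrec.nat_mul.comp (Primrec.const 2) Primrec.snd).to_comp))
    have h2 : Computable fun a : List (ℕ × F) × ℕ => cf a.1 (2 * a.2 + 1) :=
      hcf.comp (Computable.pair Computable.fst
        ((Primrec.succ.comp (Primrec.nat_mul.comp (Primrec.const 2) Primrec.snd)).to_comp))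
    have h3 : Computable fun a : List (ℕ × F) × ℕ => cf a.1 (2 * a.2 + 3) :=
      hcf.comp (Computable.pair Computable.fst
        ((Primrec.nat_add.comp (Primrec.nat_mul.comp (Primrec.const 2) Primrec.snd)
          (Primrec.const 3)).to_comp))
    have h4 := (Primrec.eq (α := F)).decide.to_comp.comp h0 (Computable.const 0)
    have h5 := (Primrec.eq (α := F)).decide.to_comp.comp (hadd.comp h1 h3) h2
    exact Primrec.and.to_comp.comp h4 h5
  · intro l
    rw [mem_ker_iff]
    simp only [Bool.and_eq_true, decide_eq_true_eq, cf_eq]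
    constructor
    · intro h j _; exact ⟨h.1, h.2 j⟩
    · intro h
      refine ⟨(h 0 (by omega)).1, fun j => ?_⟩
      by_cases hj : j < Encodable.encode l + 1
      · exact (h j hj).2
      · rw [index_lt l _ (by omega), index_lt l _ (by omega), index_lt l _ (by omega), add_zero]

theorem comp_basis (hadd : Computable₂ (fun a b : F => a + b)) :
    ComputablePred fun l : List (ℕ × F) => vec F l ∈ Set.range (e F) := by
  classical
  have hcf := computable_cf hadd
  let good : List (ℕ × F) → ℕ → Bool := fun l n => decide (cf l n = 1) &&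
    ball (fun m => decide (m = n) || decide (cf l m = 0)) (Encodable.encode l + 1)
  have hgood : ∀ l n, good l n = true ↔ vec F l n = 1 ∧ ∀ m < Encodable.encode l + 1,
      m = n ∨ vec F l m = 0 := by
    intro l n
    simp only [good, Bool.and_eq_true, decide_eq_true_eq, ball_iff, Bool.or_eq_true, cf_eq]
  have hgc : Computable₂ good := by
    have h1 : Computable fun a : List (ℕ × F) × ℕ => decide (cf a.1 a.2 = 1) :=
      (Primrec.eq (α := F)).decide.to_comp.comp hcf (Computable.const 1)
    have h2 : Computable fun a : List (ℕ × F) × ℕ =>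
        ball (fun m => decide (m = a.2) || decide (cf a.1 m = 0)) (Encodable.encode a.1 + 1) := by
      unfold ball
      refine Computable.nat_rec (f := fun a : List (ℕ × F) × ℕ => Encodable.encode a.1 + 1)
        (g := fun _ => true)
        (h := fun (a : List (ℕ × F) × ℕ) (r : ℕ × Bool) =>
          r.2 && (decide (r.1 = a.2) || decide (cf a.1 r.1 = 0))) ?_ (Computable.const true) ?_
      · exact Computable.succ.comp (Computable.encode.comp Computable.fst)
      · have h3 : Computable fun a : (List (ℕ × F) × ℕ) × (ℕ × Bool) =>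
            decide (a.2.1 = a.1.2) :=
          (Primrec.eq (α := ℕ)).decide.to_comp.comp (Computable.fst.comp Computable.snd)
            (Computable.snd.comp Computable.fst)
        have h4 : Computable fun a : (List (ℕ × F) × ℕ) × (ℕ × Bool) =>
            decide (cf a.1.1 a.2.1 = 0) :=
          (Primrec.eq (α := F)).decide.to_comp.comp
            (hcf.comp (Computable.pair (Computable.fst.comp Computable.fst)
              (Computable.fst.comp Computable.snd))) (Computable.const 0)
        exact Primrec.and.to_comp.comp (Computable.snd.comp Computable.snd)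
          (Primrec.or.to_comp.comp h3 h4)
    exact Primrec.and.to_comp.comp h1 h2
  have hnot : ComputablePred fun l : List (ℕ × F) => ∀ j < Encodable.encode l + 1,
      (!(good l j)) = true := by
    refine comp_pred (fun l j => !(good l j)) ?_ _ (fun l => Iff.rfl)
    exact Primrec.not.to_comp.comp hgc
  have h5 := hnot.not
  have heq : (fun l : List (ℕ × F) => ¬ ∀ j < Encodable.encode l + 1, (!(good l j)) = true) =
      fun l : List (ℕ × F) => vec F l ∈ Set.range (e F) := by
    funext l
    apply propext
    simp only [Bool.not_eq_true', not_forall, Bool.not_eq_false]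
    constructor
    · rintro ⟨n, hn, hg⟩
      obtain ⟨h6, h7⟩ := (hgood l n).1 hg
      refine ⟨n, ?_⟩
      ext m
      simp only [e, Finsupp.single_apply]
      by_cases hmn : n = m
      · rw [if_pos hmn, ← hmn, h6]
      · rw [if_neg hmn]
        by_cases hm : m < Encodable.encode l + 1
        · rcases h7 m hm with h | h
          · exact absurd h.symm hmn
          · exact h.symm
        · rw [index_lt l m (by omega)]
    · rintro ⟨n, hn⟩
      have h6 : vec F l n = 1 := by rw [← hn]; simp [e]
      refine ⟨n, ?_, (hgood l n).2 ⟨h6, fun m _ => ?_⟩⟩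
      · by_contra hc
        rw [index_lt l n (by omega)] at h6
        exact zero_ne_one h6
      · by_cases hmn : m = n
        · left; exact hmn
        · right; rw [← hn]; simp [e, Finsupp.single_apply, Ne.symm hmn]
  rw [heq] at h5
  exact h5

end comp

end Pool.Agent.Split
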